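import Pool.Agent.V11275.FaberB
import Pool.Agent.V11275.FaberC
import Pool.Agent.V11275.FaberD
import Pool.Agent.Y729.FW.Surj

set_option autoImplicit false

open UpperHalfPlane EisensteinSeries ModularForm MatrixGroups

namespace Pool.Agent.Results.MP_86f038_nt.PatternFails

open Pool.Agent.V11275 Pool.Agent.V11275.FaberA Pool.Agent.V11275.FaberC Pool.Agent.V11275.FaberD
open Pool.Agent.Results.MP_e05153_nt.NoZero (jinv disc_ne u)

/-- `f` is the element `f_{12ℓ,m}` of the Miller basis of `M_{12ℓ}`: its `q`-expansion is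
`q^m + O(q^(ℓ+1))`. -/
def IsMiller (ℓ m : ℕ) (f : ModularForm 𝒮ℒ ((12 * ℓ : ℕ) : ℤ)) : Prop :=
  ∀ i ≤ ℓ, (qExpansion 1 f).coeff i = if i = m then 1 else 0

/-- The arc `{e^{iθ} : π/2 ≤ θ ≤ 2π/3}`. -/
def arc : Set ℍ :=
  {τ | ∃ θ ∈ Set.Icc (Real.pi / 2) (2 * Real.pi / 3), (τ : ℂ) = Complex.exp (θ * Complex.I)}

/-- `f_{12ℓ,m}` has a zero whose orbit under `SL(2, ℤ)` does not meet the arc. -/
def HasZeroOffArc (ℓ m : ℕ) : Prop :=
  ∃ f : ModularForm 𝒮ℒ ((12 * ℓ : ℕ) : ℤ), IsMiller ℓ m f ∧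
    ∃ τ : ℍ, f τ = 0 ∧ ∀ γ : SL(2, ℤ), γ • τ ∉ arc

/-- The sixteen offsets `m_r`. -/
def offset : Fin 16 → ℕ := ![4, 3, 4, 5, 6, 7, 6, 7, 8, 9, 10, 9, 10, 11, 12, 13]

/-- The assertion of Q1: for `ℓ = 16 s + r > 30` the least `m ∈ {0, …, ℓ}` for which `f_{12ℓ,m}` has
a zero off the arc is `10 s + m_r`, and `f_{12ℓ,m}` has a zero off the arc for all larger `m < ℓ`. -/
def QuestionOne : Prop :=
  ∀ (s : ℕ) (r : Fin 16), 30 < 16 * s + (r : ℕ) →
    IsLeast {m | m ≤ 16 * s + (r : ℕ) ∧ HasZeroOffArc (16 * s + r) m} (10 * s + offset r) ∧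
    ∀ m, 10 * s + offset r ≤ m → m ≤ 16 * s + (r : ℕ) - 1 → HasZeroOffArc (16 * s + r) m

theorem miller_unique {ℓ m : ℕ} {f g : ModularForm 𝒮ℒ ((12 * ℓ : ℕ) : ℤ)} (hf : IsMiller ℓ m f)
    (hg : IsMiller ℓ m g) : f = g := by
  apply coefMap_injective ℓ
  funext i
  have h1 := hf i (by omega)
  have h2 := hg i (by omega)
  change (qExpansion 1 f).coeff i = (qExpansion 1 g).coeff i
  rw [h1, h2]

open Complex in
theorem off_arc {ℓ m : ℕ} (hm : m ≤ ℓ) (heven : Even (ℓ - m))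
    (hneg : PowerSeries.coeff (ℓ - m) (u⁻¹ ^ ℓ * (r6 * r4⁻¹)) < 0) : HasZeroOffArc ℓ m := by
  obtain ⟨f, hf⟩ := exists_miller ℓ m
  obtain ⟨F, hF1, hF2⟩ := exists_poly ℓ _ (by push_cast; ring) f
  obtain ⟨hmon, hdeg⟩ := miller_monic ℓ m hm f hf F hF1 hF2
  have hc := coeff_formula (12 * ℓ) ℓ m hm f hf (fun n => F.coeff n) (fun τ => by
    rw [hF2 τ]; exact disc_eval ℓ (ℓ - m) (Nat.sub_le _ _) F hdeg.le τ)
  set c : ℝ := PowerSeries.coeff (ℓ - m) (u⁻¹ ^ ℓ * (r6 * r4⁻¹)) with hcdef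
  -- a root outside `[0, 1728]`
  obtain ⟨z, hz, hout⟩ : ∃ z : ℂ, F.IsRoot z ∧ ∀ x : ℝ, 0 ≤ x → x ≤ 1728 → z ≠ x := by
    by_contra hcon
    push Not at hcon
    have h1 : F.coeff 0 = (-1) ^ F.natDegree * F.roots.prod :=
      (IsAlgClosed.splits F).coeff_zero_eq_prod_roots_of_monic hmon
    have h2 : ∃ x : ℝ, 0 ≤ x ∧ F.roots.prod = x := by
      have h3 : ∀ z ∈ F.roots, ∃ x : ℝ, 0 ≤ x ∧ z = x := by
        intro z hz
        obtain ⟨x, hx0, _, hx⟩ := hcon z ((Polynomial.mem_roots hmon.ne_zero).mp hz)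
        exact ⟨x, hx0, hx⟩
      revert h3
      generalize F.roots = s
      intro h3
      induction s using Multiset.induction_on with
      | empty => exact ⟨1, zero_le_one, by simp⟩
      | cons a s ih =>
        obtain ⟨x, hx0, hx⟩ := h3 a (Multiset.mem_cons_self _ _)
        obtain ⟨y, hy0, hy⟩ := ih (fun z hz => h3 z (Multiset.mem_cons_of_mem hz))
        refine ⟨x * y, mul_nonneg hx0 hy0, ?_⟩
        rw [Multiset.prod_cons, hx, hy]
        push_cast; rfl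
    obtain ⟨x, hx0, hx⟩ := h2
    rw [hdeg, heven.neg_one_pow, one_mul, hx] at h1
    have h4 : F.coeff 0 = (c : ℂ) := hc
    rw [h4] at h1
    have h5 : c = x := by exact_mod_cast h1
    linarith
  obtain ⟨τ, hτ⟩ := Pool.Agent.Y729.FW.j_surj z
  have hjj : ∀ τ : ℍ, jinv τ = Pool.Agent.TH876.FH.jInv τ := fun τ => rfl
  refine ⟨f, hf, τ, ?_, ?_⟩
  · rw [hF2 τ, hjj, hτ]
    rw [Polynomial.IsRoot.def] at hz
    rw [hz, mul_zero]
  · rintro γ ⟨θ, hθ, hγ⟩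
    obtain ⟨x, hx0, hx1, hx⟩ := j_arc (γ • τ) θ hθ hγ
    rw [hjj, Pool.Agent.Y729.FW.j_smul, hτ] at hx
    exact hout x hx0 hx1 hx

/-- Q1 fails: `f_{1920,102}` and `f_{3648,192}` have zeros off the arc, although the predicted least
indices for `ℓ = 160` and `ℓ = 304` are `104` and `194`. -/
theorem result : HasZeroOffArc 160 102 ∧ HasZeroOffArc 304 192 ∧ ¬ QuestionOne := by
  have h1 : HasZeroOffArc 160 102 := off_arc (by norm_num) ⟨29, rfl⟩ neg160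
  have h2 : HasZeroOffArc 304 192 := off_arc (by norm_num) ⟨56, rfl⟩ neg304
  refine ⟨h1, h2, ?_⟩
  intro hQ
  have h3 := (hQ 10 0 (by decide)).1.2 (show (102 : ℕ) ∈ _ from ⟨by decide, h1⟩)
  revert h3
  decide

end Pool.Agent.Results.MP_86f038_nt.PatternFails
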